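import Pool.Agent.H74.Neck

/-!
# Edge marginals of uniform connected subgraphs of fixed excess can decrease at nearly all steps

The definitions `conn`, `marg` and the proof are in `Pool/Agent/H74/Neck.lean`.
-/

set_option autoImplicit false

namespace Pool.Agent.Results.MP_7fb2f0_pr.MarginalDecreasing

open SimpleGraph Pool.Agent.H74.Neck

/-- **The marginals can decrease at nearly all steps.** For every `m ≥ 1` there are a finite connected graph `G`
with `|E| - |V| = m` and an edge `e` of `G` such that `p_e(k + 1) < p_e(k)` for all integers `k` with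
`-1 ≤ k ≤ m - 1 - 2 √(m + 1)`. -/
theorem result : ∀ m : ℕ, 1 ≤ m → ∃ (V : Type) (_ : Fintype V) (G : SimpleGraph V) (e : Sym2 V),
    G.Connected ∧ e ∈ G.edgeSet ∧ (G.edgeSet.ncard : ℤ) - Fintype.card V = m ∧
    ∀ k : ℤ, -1 ≤ k → (k : ℝ) + 1 + 2 * √((m : ℝ) + 1) ≤ m → marg G (k + 1) e < marg G k e := by
  refine fun m hm => ⟨VV m 2, inferInstance, neck m 2, ed m 2 none, neck_connected hm (by norm_num),
    e_mem hm, ?_, fun k hk hk2 => decreasing hm k hk hk2⟩
  rw [neck_ncard hm, card_VV]
  push_cast
  ring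

end Pool.Agent.Results.MP_7fb2f0_pr.MarginalDecreasing
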