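import Pool.Agent.H74.Neck

/-!
# Edge marginals of uniform connected subgraphs of fixed excess can drop from nearly one to nearly zero

The definitions `conn`, `marg` and the proof are in `Pool/Agent/H74/Neck.lean`.
-/

set_option autoImplicit false

namespace Pool.Agent.Results.MP_7fb2f0_pr.MarginalDrop

open SimpleGraph Pool.Agent.H74.Neck

/-- **The marginals can drop from nearly one to nearly zero.** For every `ε > 0` there are a finite connected
graph `G`, an edge `e` of `G` and an integer `k` in the range `-1 ≤ k ≤ |E| - |V|` such that `p_e(-1) > 1 - ε`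
and `p_e(k) < ε`. -/
theorem result : ∀ ε : ℝ, 0 < ε → ∃ (V : Type) (_ : Fintype V) (G : SimpleGraph V) (e : Sym2 V) (k : ℤ),
    G.Connected ∧ e ∈ G.edgeSet ∧ -1 ≤ k ∧ k ≤ (G.edgeSet.ncard : ℤ) - Fintype.card V ∧
    1 - ε < marg G (-1) e ∧ marg G k e < ε :=
  drop

end Pool.Agent.Results.MP_7fb2f0_pr.MarginalDrop
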