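import Mathlib

/-!
# Edge marginals of uniform connected subgraphs: a closed form

The chain of `m` triangles closed by one edge `e` (`2 m + 1` vertices, `3 m + 1` edges).  The
marginal `p_e(k)` has a closed form; it is strictly decreasing in `k` except on the last
`O(√m)` values of `k`.
-/

set_option autoImplicit false

open Finset

namespace Pool.Agent.Results.MP_7fb2f0_pr.TriangleNecklace

/-! ### The definitions of the problem -/

/-- The connected spanning subgraphs of `G` with excess `k`, given by their sets of edges: sets `F`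
of edges of `G` with `|V| + k` elements such that the graph `(V, F)` is connected. -/
def connSub {V : Type} [Fintype V] (G : SimpleGraph V) (k : ℤ) : Set (Set (Sym2 V)) :=
  {F | F ⊆ G.edgeSet ∧ (SimpleGraph.fromEdgeSet F).Connected ∧ (F.ncard : ℤ) = Fintype.card V + k}

/-- The marginal `p_e(k)`: the proportion of the connected spanning subgraphs of excess `k` which
contain the edge `e`. -/
noncomputable def marginal {V : Type} [Fintype V] (G : SimpleGraph V) (e : Sym2 V) (k : ℤ) : ℚ :=
  ({F ∈ connSub G k | e ∈ F}.ncard : ℚ) / ((connSub G k).ncard : ℚ)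

/-! ### The graph -/

/-- The vertices: `inl 0, ..., inl m` on a line, and the apices `inr 0, ..., inr (m - 1)`. -/
abbrev Vert (m : ℕ) : Type := Fin (m + 1) ⊕ Fin m

/-- The edges: `none` is the closing edge from `inl 0` to `inl m`; `some (j, c)` are the three edges
of the triangle `inl j`, `inr j`, `inl (j + 1)`. -/
def em (m : ℕ) : Option (Fin m × Fin 3) → Sym2 (Vert m)
  | none => s(Sum.inl 0, Sum.inl (Fin.last m))
  | some (j, c) => if c = 0 then s(Sum.inl j.castSucc, Sum.inl j.succ) else
      if c = 1 then s(Sum.inl j.castSucc, Sum.inr j) else s(Sum.inr j, Sum.inl j.succ)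

/-- The chain of `m` triangles closed by an edge. -/
def necklace (m : ℕ) : SimpleGraph (Vert m) := SimpleGraph.fromEdgeSet (Set.range (em m))

theorem em_not_diag {m : ℕ} (hm : 1 ≤ m) (x : Option (Fin m × Fin 3)) : ¬ (em m x).IsDiag := by
  rcases x with _ | ⟨j, c⟩
  · show ¬ (s(Sum.inl 0, Sum.inl (Fin.last m)) : Sym2 (Vert m)).IsDiag
    rw [Sym2.mk_isDiag_iff]
    intro h
    have := Sum.inl.inj h
    have h2 := congrArg Fin.val this
    simp at h2
    omega
  · unfold em
    fin_cases c
    · simp [Fin.ext_iff]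
    · simp
    · simp

theorem em_injective {m : ℕ} (hm : 2 ≤ m) : Function.Injective (em m) := by
  have key : ∀ (j j' : Fin m) (c c' : Fin 3), em m (some (j, c)) = em m (some (j', c')) →
      j = j' ∧ c = c' := by
    intro j j' c c' h
    unfold em at h
    fin_cases c <;> fin_cases c' <;> simp [Fin.ext_iff] at h ⊢ <;> omega
  have key2 : ∀ (j : Fin m) (c : Fin 3), em m none ≠ em m (some (j, c)) := by
    intro j c h
    have := j.2
    unfold em at h
    fin_cases c <;> simp [Fin.ext_iff] at h <;> omega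
  rintro (_ | ⟨j, c⟩) (_ | ⟨j', c'⟩) h
  · rfl
  · exact absurd h (key2 _ _)
  · exact absurd h.symm (key2 _ _)
  · obtain ⟨rfl, rfl⟩ := key _ _ _ _ h
    rfl

theorem edgeSet_eq {m : ℕ} (hm : 1 ≤ m) : (necklace m).edgeSet = Set.range (em m) := by
  unfold necklace
  rw [SimpleGraph.edgeSet_fromEdgeSet]
  ext x
  constructor
  · rintro ⟨h, -⟩; exact h
  · rintro ⟨y, rfl⟩
    exact ⟨⟨y, rfl⟩, em_not_diag hm y⟩

/-! ### The configurations -/

/-- the values of a configuration -/
def val {m : ℕ} (b : Bool) (f : Fin m → Fin 3 → Bool) : Option (Fin m × Fin 3) → Bool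
  | none => b
  | some (j, c) => f j c

/-- the set of open edges of a configuration -/
def F {m : ℕ} (b : Bool) (f : Fin m → Fin 3 → Bool) : Set (Sym2 (Vert m)) :=
  em m '' {y | val b f y = true}

theorem mem_F {m : ℕ} (hm : 2 ≤ m) {b : Bool} {f : Fin m → Fin 3 → Bool}
    {y : Option (Fin m × Fin 3)} : em m y ∈ F b f ↔ val b f y = true := by
  unfold F
  rw [(em_injective hm).mem_set_image]
  rfl

theorem F_inj {m : ℕ} (hm : 2 ≤ m) {b b' : Bool} {f f' : Fin m → Fin 3 → Bool}
    (h : F b f = F b' f') : b = b' ∧ f = f' := by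
  have h1 : ∀ y, val b f y = val b' f' y := by
    intro y
    rw [Bool.eq_iff_iff, ← mem_F hm, ← mem_F hm, h]
  refine ⟨h1 none, ?_⟩
  funext j c
  exact h1 (some (j, c))

theorem F_surj {m : ℕ} {S : Set (Sym2 (Vert m))} (hS : S ⊆ Set.range (em m)) :
    ∃ b f, S = F (m := m) b f := by
  classical
  refine ⟨decide (em m none ∈ S), fun j c => decide (em m (some (j, c)) ∈ S), ?_⟩
  ext x
  constructor
  · intro hx
    obtain ⟨y, rfl⟩ := hS hx
    refine ⟨y, ?_, rfl⟩
    rcases y with _ | ⟨j, c⟩
    · simpa [val] using hx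
    · simpa [val] using hx
  · rintro ⟨y, hy, rfl⟩
    rcases y with _ | ⟨j, c⟩
    · simpa [val] using hy
    · simpa [val] using hy

/-- the number of open edges of a triangle -/
def wt (s : Fin 3 → Bool) : ℕ := ∑ c, if s c = true then 1 else 0

theorem ncard_F {m : ℕ} (hm : 2 ≤ m) (b : Bool) (f : Fin m → Fin 3 → Bool) :
    (F b f).ncard = (if b = true then 1 else 0) + ∑ j, wt (f j) := by
  unfold F
  rw [Set.ncard_image_of_injective _ (em_injective hm)]
  have h : {y | val b f y = true} = ((Finset.univ.filter fun y => val b f y = true : Finset _) : Set _) := by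
    ext y; simp
  rw [h, Set.ncard_coe_finset, Finset.card_filter, Fintype.sum_option, Fintype.sum_prod_type]
  rfl

/-! ### Connectivity -/

/-- a property which is preserved along open edges holds on a whole component -/
theorem inv {V : Type} {G : SimpleGraph V} {p : V → Prop} (hp : ∀ x y, G.Adj x y → p x → p y)
    {u v : V} (h : G.Reachable u v) (hu : p u) : p v := by
  obtain ⟨w⟩ := h
  induction w with
  | nil => exact hu
  | cons h _ ih => exact ih (hp _ _ h hu)

theorem adj_iff {m : ℕ} (hm : 2 ≤ m) {b : Bool} {f : Fin m → Fin 3 → Bool} {x y : Vert m} :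
    (SimpleGraph.fromEdgeSet (F b f)).Adj x y ↔ ∃ z, val b f z = true ∧ em m z = s(x, y) := by
  rw [SimpleGraph.fromEdgeSet_adj]
  constructor
  · rintro ⟨⟨z, hz, h⟩, -⟩
    exact ⟨z, hz, h⟩
  · rintro ⟨z, hz, h⟩
    refine ⟨⟨z, hz, h⟩, ?_⟩
    rintro rfl
    apply em_not_diag (by omega) z
    rw [h]
    simp

/-- the two broken states of a triangle: exactly one edge is open, and it is not the base -/
def br (s : Fin 3 → Bool) : Prop := wt s = 1 ∧ s 0 = false

/-- at least two edges of the triangle are open -/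
def ok (s : Fin 3 → Bool) : Prop := 2 ≤ wt s

instance (s : Fin 3 → Bool) : Decidable (br s) := by unfold br; infer_instance
instance (s : Fin 3 → Bool) : Decidable (ok s) := by unfold ok; infer_instance

theorem wt_eq (s : Fin 3 → Bool) : wt s = (if s 0 = true then 1 else 0) +
    (if s 1 = true then 1 else 0) + (if s 2 = true then 1 else 0) := by
  unfold wt
  rw [Fin.sum_univ_three]

/-- the criterion for connectivity -/
def Crit {m : ℕ} (b : Bool) (f : Fin m → Fin 3 → Bool) : Prop :=
  (∀ j, ok (f j)) ∨ (b = true ∧ ∃ j₀, br (f j₀) ∧ ∀ j, j ≠ j₀ → ok (f j))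

section connected
variable {m : ℕ} {b : Bool} {f : Fin m → Fin 3 → Bool}

theorem adj_base (hm : 2 ≤ m) {j : Fin m} (h : f j 0 = true) :
    (SimpleGraph.fromEdgeSet (F b f)).Adj (Sum.inl j.castSucc) (Sum.inl j.succ) :=
  (adj_iff hm).2 ⟨some (j, 0), h, rfl⟩

theorem adj_left (hm : 2 ≤ m) {j : Fin m} (h : f j 1 = true) :
    (SimpleGraph.fromEdgeSet (F b f)).Adj (Sum.inl j.castSucc) (Sum.inr j) :=
  (adj_iff hm).2 ⟨some (j, 1), h, rfl⟩

theorem adj_right (hm : 2 ≤ m) {j : Fin m} (h : f j 2 = true) :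
    (SimpleGraph.fromEdgeSet (F b f)).Adj (Sum.inr j) (Sum.inl j.succ) :=
  (adj_iff hm).2 ⟨some (j, 2), h, rfl⟩

theorem adj_close (hm : 2 ≤ m) (h : b = true) :
    (SimpleGraph.fromEdgeSet (F b f)).Adj (Sum.inl 0) (Sum.inl (Fin.last m)) :=
  (adj_iff hm).2 ⟨none, h, rfl⟩

theorem link (hm : 2 ≤ m) {j : Fin m} (h : ok (f j)) :
    (SimpleGraph.fromEdgeSet (F b f)).Reachable (Sum.inl j.castSucc) (Sum.inl j.succ) := by
  unfold ok at h
  rw [wt_eq] at h
  have key : ∀ x y z : Bool, 2 ≤ (if x = true then 1 else 0) + (if y = true then 1 else 0) +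
      (if z = true then 1 else 0) → x = true ∨ (y = true ∧ z = true) := by decide
  rcases key _ _ _ h with h0 | ⟨h1, h2⟩
  · exact (adj_base hm h0).reachable
  · exact (adj_left hm h1).reachable.trans (adj_right hm h2).reachable

theorem apex (hm : 2 ≤ m) {j : Fin m} (h : ok (f j) ∨ br (f j)) :
    (SimpleGraph.fromEdgeSet (F b f)).Reachable (Sum.inl j.castSucc) (Sum.inr j) ∨
      (SimpleGraph.fromEdgeSet (F b f)).Reachable (Sum.inl j.succ) (Sum.inr j) := by
  by_cases h1 : f j 1 = true
  · exact Or.inl (adj_left hm h1).reachable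
  · by_cases h2 : f j 2 = true
    · exact Or.inr (adj_right hm h2).reachable.symm
    · exfalso
      rcases h with h | h
      · unfold ok at h
        rw [wt_eq] at h
        simp only [h1, h2] at h
        split_ifs at h <;> simp at *
      · unfold br at h
        rw [wt_eq] at h
        simp [h1, h2, h.2] at h

/-- connectivity from the points of the line -/
theorem connected_of_line (hm : 2 ≤ m) (ha : ∀ j, ok (f j) ∨ br (f j))
    (h : ∀ a : Fin (m + 1), (SimpleGraph.fromEdgeSet (F b f)).Reachable (Sum.inl 0) (Sum.inl a)) :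
    (SimpleGraph.fromEdgeSet (F b f)).Connected := by
  have h2 : ∀ x : Vert m, (SimpleGraph.fromEdgeSet (F b f)).Reachable (Sum.inl 0) x := by
    rintro (a | j)
    · exact h a
    · rcases apex (b := b) hm (ha j) with h1 | h1
      · exact (h _).trans h1
      · exact (h _).trans h1
  exact { preconnected := fun x y => (h2 x).symm.trans (h2 y) }

theorem connected_of_crit (hm : 2 ≤ m) (h : Crit b f) :
    (SimpleGraph.fromEdgeSet (F b f)).Connected := by
  rcases h with h | ⟨hb, j₀, hj, h⟩
  · refine connected_of_line hm (fun j => Or.inl (h j)) fun a => ?_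
    induction a using Fin.induction with
    | zero => exact SimpleGraph.Reachable.refl _
    | succ i ih => exact ih.trans (link hm (h i))
  · have h1 : ∀ a : Fin (m + 1), a ≤ j₀.castSucc →
        (SimpleGraph.fromEdgeSet (F b f)).Reachable (Sum.inl 0) (Sum.inl a) := by
      intro a
      induction a using Fin.induction with
      | zero => intro _; exact SimpleGraph.Reachable.refl _
      | succ i ih =>
        intro hi
        have hi' : i < j₀ := by
          rw [Fin.le_def] at hi
          rw [Fin.lt_def]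
          simpa using hi
        refine (ih ?_).trans (link hm (h i (ne_of_lt hi')))
        rw [Fin.le_def]
        rw [Fin.lt_def] at hi'
        simpa using hi'.le
    have h2 : ∀ a : Fin (m + 1), j₀.castSucc < a →
        (SimpleGraph.fromEdgeSet (F b f)).Reachable (Sum.inl (Fin.last m)) (Sum.inl a) := by
      intro a
      induction a using Fin.reverseInduction with
      | last => intro _; exact SimpleGraph.Reachable.refl _
      | cast i ih =>
        intro hi
        have hi' : j₀ < i := by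
          rw [Fin.lt_def] at hi ⊢
          simpa using hi
        refine (ih ?_).trans (link hm (h i (ne_of_gt hi'))).symm
        rw [Fin.lt_def] at hi' ⊢
        simp only [Fin.val_castSucc, Fin.val_succ]
        omega
    refine connected_of_line hm (fun j => ?_) fun a => ?_
    · by_cases e : j = j₀
      · rw [e]; exact Or.inr hj
      · exact Or.inl (h j e)
    · rcases le_or_gt a j₀.castSucc with ha | ha
      · exact h1 a ha
      · exact (adj_close hm hb).reachable.trans (h2 a ha)

/-- The cut between the broken triangles `j` and `j'` (or `j' = m` if the closing edge is closed). -/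
theorem cut (hm : 2 ≤ m) (hc : (SimpleGraph.fromEdgeSet (F b f)).Connected) (j j' : ℕ)
    (hjm : j < m) (hjj : j < j') (hj'm : j' ≤ m)
    (h1 : f ⟨j, hjm⟩ 0 = false ∧ ¬ (f ⟨j, hjm⟩ 1 = true ∧ f ⟨j, hjm⟩ 2 = true))
    (h2 : ∀ h : j' < m, f ⟨j', h⟩ 0 = false ∧ ¬ (f ⟨j', h⟩ 1 = true ∧ f ⟨j', h⟩ 2 = true))
    (h3 : j' = m → b = false) : False := by
  classical
  have hp := inv (G := SimpleGraph.fromEdgeSet (F b f)) (p := fun x : Vert m =>
    match x with
    | Sum.inl a => j < (a : ℕ) ∧ (a : ℕ) ≤ j'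
    | Sum.inr c => (j < (c : ℕ) ∧ (c : ℕ) < j') ∨ ((c : ℕ) = j ∧ f c 2 = true) ∨
        ((c : ℕ) = j' ∧ f c 1 = true)) ?_
    (hc.preconnected (Sum.inl ⟨j + 1, by omega⟩) (Sum.inl 0)) ?_
  · simp at hp
  · intro x y hxy hx
    rw [adj_iff hm] at hxy
    obtain ⟨z, hz, hz'⟩ := hxy
    have e1 : ∀ l : Fin m, (l : ℕ) = j → f l 0 = false ∧ ¬ (f l 1 = true ∧ f l 2 = true) := by
      rintro ⟨l, hl⟩ rfl; exact h1
    have e2 : ∀ l : Fin m, (l : ℕ) = j' → f l 0 = false ∧ ¬ (f l 1 = true ∧ f l 2 = true) := by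
      rintro ⟨l, hl⟩ rfl; exact h2 hl
    rcases z with _ | ⟨l, c⟩
    · have hz2 : b = true := hz
      have hz3 : s(Sum.inl 0, Sum.inl (Fin.last m)) = s(x, y) := hz'
      rw [Sym2.eq_iff] at hz3
      rcases hz3 with ⟨rfl, rfl⟩ | ⟨rfl, rfl⟩
      · simp at hx
      · simp only [Fin.val_last] at hx
        have := h3 (by omega)
        rw [this] at hz2
        exact absurd hz2 (by decide)
    · have hz2 : f l c = true := hz
      have hl := l.2
      by_cases c0 : c = 0
      · subst c0
        have hz3 : s(Sum.inl l.castSucc, Sum.inl l.succ) = s(x, y) := hz'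
        have n1 : (l : ℕ) ≠ j := fun e => by rw [(e1 l e).1] at hz2; exact absurd hz2 (by decide)
        have n2 : (l : ℕ) ≠ j' := fun e => by rw [(e2 l e).1] at hz2; exact absurd hz2 (by decide)
        rw [Sym2.eq_iff] at hz3
        rcases hz3 with ⟨rfl, rfl⟩ | ⟨rfl, rfl⟩
        · simp only [Fin.val_castSucc, Fin.val_succ] at hx ⊢; omega
        · simp only [Fin.val_castSucc, Fin.val_succ] at hx ⊢; omega
      · by_cases c1 : c = 1
        · subst c1
          have hz3 : s(Sum.inl l.castSucc, Sum.inr l) = s(x, y) := hz'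
          have n1 : (l : ℕ) = j → ¬ f l 2 = true := fun e h => (e1 l e).2 ⟨hz2, h⟩
          rw [Sym2.eq_iff] at hz3
          rcases hz3 with ⟨rfl, rfl⟩ | ⟨rfl, rfl⟩
          · simp only [Fin.val_castSucc] at hx ⊢
            rcases Nat.lt_or_ge (l : ℕ) j' with h | h
            · left; omega
            · right; right; exact ⟨by omega, hz2⟩
          · simp only [Fin.val_castSucc] at hx ⊢
            rcases hx with hx | ⟨hx, hx'⟩ | ⟨hx, hx'⟩
            · omega
            · exact absurd hx' (n1 hx)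
            · omega
        · have c2 : c = 2 := by omega
          subst c2
          have hz3 : s(Sum.inr l, Sum.inl l.succ) = s(x, y) := hz'
          have n1 : (l : ℕ) = j' → ¬ f l 1 = true := fun e h => (e2 l e).2 ⟨h, hz2⟩
          rw [Sym2.eq_iff] at hz3
          rcases hz3 with ⟨rfl, rfl⟩ | ⟨rfl, rfl⟩
          · simp only [Fin.val_succ] at hx ⊢
            rcases hx with hx | ⟨hx, hx'⟩ | ⟨hx, hx'⟩
            · omega
            · omega
            · exact absurd hx' (n1 hx)
          · simp only [Fin.val_succ] at hx ⊢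
            rcases Nat.lt_or_ge j (l : ℕ) with h | h
            · left; omega
            · right; left; exact ⟨by omega, hz2⟩
  · show j < j + 1 ∧ j + 1 ≤ j'
    omega

/-- the apex of each triangle has an open edge -/
theorem apex_open (hm : 2 ≤ m) (hc : (SimpleGraph.fromEdgeSet (F b f)).Connected) (j : Fin m) :
    f j 1 = true ∨ f j 2 = true := by
  by_contra hcon
  push Not at hcon
  have hp := inv (G := SimpleGraph.fromEdgeSet (F b f)) (p := fun x : Vert m => x = Sum.inr j) ?_
    (hc.preconnected (Sum.inr j) (Sum.inl 0)) rfl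
  · exact absurd hp (by simp)
  · rintro x y hxy rfl
    rw [adj_iff hm] at hxy
    obtain ⟨z, hz, hz'⟩ := hxy
    rcases z with _ | ⟨l, c⟩
    · have hz3 : s(Sum.inl 0, Sum.inl (Fin.last m)) = s(Sum.inr j, y) := hz'
      rw [Sym2.eq_iff] at hz3
      rcases hz3 with ⟨h, _⟩ | ⟨_, h⟩ <;> simp at h
    · have hz2 : f l c = true := hz
      by_cases c0 : c = 0
      · subst c0
        have hz3 : s(Sum.inl l.castSucc, Sum.inl l.succ) = s(Sum.inr j, y) := hz'
        rw [Sym2.eq_iff] at hz3
        rcases hz3 with ⟨h, _⟩ | ⟨_, h⟩ <;> simp at h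
      · by_cases c1 : c = 1
        · subst c1
          have hz3 : s(Sum.inl l.castSucc, Sum.inr l) = s(Sum.inr j, y) := hz'
          rw [Sym2.eq_iff] at hz3
          rcases hz3 with ⟨h, _⟩ | ⟨_, h⟩
          · simp at h
          · rw [Sum.inr.inj h] at hz2
            exact absurd hz2 hcon.1
        · have c2 : c = 2 := by omega
          subst c2
          have hz3 : s(Sum.inr l, Sum.inl l.succ) = s(Sum.inr j, y) := hz'
          rw [Sym2.eq_iff] at hz3
          rcases hz3 with ⟨h, _⟩ | ⟨_, h⟩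
          · rw [Sum.inr.inj h] at hz2
            exact absurd hz2 hcon.2
          · simp at h

theorem crit_of_connected (hm : 2 ≤ m) (hc : (SimpleGraph.fromEdgeSet (F b f)).Connected) :
    Crit b f := by
  have key : ∀ s : Fin 3 → Bool, (s 1 = true ∨ s 2 = true) → ¬ ok s →
      br s ∧ (s 0 = false ∧ ¬ (s 1 = true ∧ s 2 = true)) := by
    intro s
    unfold ok br
    rw [wt_eq]
    generalize s 0 = x
    generalize s 1 = y
    generalize s 2 = z
    revert x y z
    decide
  by_cases hall : ∀ j, ok (f j)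
  · exact Or.inl hall
  · push Not at hall
    obtain ⟨j₀, hj₀⟩ := hall
    obtain ⟨k1, k2⟩ := key _ (apex_open hm hc j₀) hj₀
    refine Or.inr ⟨?_, j₀, k1, ?_⟩
    · by_contra hb
      have hb' : b = false := by simpa using hb
      exact cut hm hc j₀ m j₀.2 j₀.2 le_rfl k2 (fun h => absurd h (lt_irrefl _)) (fun _ => hb')
    · intro j hj
      by_contra hnj
      obtain ⟨-, l2⟩ := key _ (apex_open hm hc j) hnj
      have hne : (j : ℕ) ≠ j₀ := fun e => hj (Fin.ext e)
      rcases lt_or_gt_of_ne hne with h | h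
      · exact cut hm hc j j₀ j.2 h j₀.2.le l2 (fun _ => k2) (fun e => absurd j₀.2 (by omega))
      · exact cut hm hc j₀ j j₀.2 h j.2.le k2 (fun _ => l2) (fun e => absurd j.2 (by omega))

theorem connected_iff (hm : 2 ≤ m) :
    (SimpleGraph.fromEdgeSet (F b f)).Connected ↔ Crit b f :=
  ⟨crit_of_connected hm, connected_of_crit hm⟩

end connected

/-! ### Counting -/

open Polynomial in
theorem gen {m : ℕ} (t : Fin m → Finset (Fin 3 → Bool)) (N : ℕ) :
    (∏ j, ∑ s ∈ t j, (X : ℕ[X]) ^ wt s).coeff N =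
      ((Fintype.piFinset t).filter fun f => ∑ j, wt (f j) = N).card := by
  rw [Finset.prod_univ_sum, Polynomial.finsetSum_coeff, Finset.card_filter]
  refine Finset.sum_congr rfl fun f _ => ?_
  rw [Finset.prod_pow_eq_pow_sum, Polynomial.coeff_X_pow]
  simp only [eq_comm]

open Polynomial in
theorem sum_ok : ∑ s ∈ Finset.univ.filter ok, (X : ℕ[X]) ^ wt s = X ^ 2 * (X + C 3) := by
  rw [Finset.sum_comp (fun n => (X : ℕ[X]) ^ n) wt]
  have h : (Finset.univ.filter ok).image wt = {2, 3} := by decide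
  rw [h, Finset.sum_pair (by decide)]
  have h2 : ((Finset.univ.filter ok).filter fun a => wt a = 2).card = 3 := by decide
  have h3 : ((Finset.univ.filter ok).filter fun a => wt a = 3).card = 1 := by decide
  rw [h2, h3]
  simp only [nsmul_eq_mul, Nat.cast_ofNat, Nat.cast_one, one_mul]
  have : (C 3 : ℕ[X]) = 3 := rfl
  rw [this]
  ring

open Polynomial in
theorem sum_br : ∑ s ∈ Finset.univ.filter br, (X : ℕ[X]) ^ wt s = C 2 * X := by
  rw [Finset.sum_comp (fun n => (X : ℕ[X]) ^ n) wt]
  have h : (Finset.univ.filter br).image wt = {1} := by decide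
  rw [h, Finset.sum_singleton]
  have h2 : ((Finset.univ.filter br).filter fun a => wt a = 1).card = 2 := by decide
  rw [h2]
  simp only [nsmul_eq_mul, Nat.cast_ofNat, pow_one]
  rfl

/-- all triangles have at least two open edges -/
def allOk (m N : ℕ) : Finset (Fin m → Fin 3 → Bool) :=
  (Fintype.piFinset fun _ => Finset.univ.filter ok).filter fun f => ∑ j, wt (f j) = N

/-- only the triangle `j₀` is broken -/
def oneBr (m : ℕ) (j₀ : Fin m) (N : ℕ) : Finset (Fin m → Fin 3 → Bool) :=
  (Fintype.piFinset fun j => if j = j₀ then Finset.univ.filter br else Finset.univ.filter ok).filter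
    fun f => ∑ j, wt (f j) = N

theorem mem_allOk {m N : ℕ} {f : Fin m → Fin 3 → Bool} :
    f ∈ allOk m N ↔ (∀ j, ok (f j)) ∧ ∑ j, wt (f j) = N := by
  unfold allOk
  simp

theorem mem_oneBr {m N : ℕ} {j₀ : Fin m} {f : Fin m → Fin 3 → Bool} :
    f ∈ oneBr m j₀ N ↔ (br (f j₀) ∧ ∀ j, j ≠ j₀ → ok (f j)) ∧ ∑ j, wt (f j) = N := by
  unfold oneBr
  rw [Finset.mem_filter, Fintype.mem_piFinset]
  refine and_congr_left fun _ => ?_
  constructor
  · intro h
    refine ⟨?_, fun j hj => ?_⟩
    · have := h j₀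
      simpa using this
    · have := h j
      simpa [hj] using this
  · rintro ⟨h1, h2⟩ j
    by_cases hj : j = j₀
    · subst hj; simpa using h1
    · simpa [hj] using h2 j hj

theorem card_allOk (m i : ℕ) : (allOk m (2 * m + i)).card = 3 ^ (m - i) * m.choose i := by
  unfold allOk
  rw [← gen, Finset.prod_const, sum_ok, mul_pow, ← pow_mul, Finset.card_univ, Fintype.card_fin,
    add_comm (2 * m) i, Polynomial.coeff_X_pow_mul, Polynomial.coeff_X_add_C_pow]
  simp

theorem card_allOk_lt {m N : ℕ} (h : N < 2 * m) : (allOk m N).card = 0 := by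
  unfold allOk
  rw [← gen, Finset.prod_const, sum_ok, mul_pow, ← pow_mul, Finset.card_univ, Fintype.card_fin,
    Polynomial.coeff_X_pow_mul', if_neg (by omega)]

theorem card_oneBr {m : ℕ} (j₀ : Fin m) (i : ℕ) :
    (oneBr m j₀ (2 * (m - 1) + 1 + i)).card = 2 * (3 ^ (m - 1 - i) * (m - 1).choose i) := by
  unfold oneBr
  rw [← gen, ← Finset.mul_prod_erase _ _ (Finset.mem_univ j₀), if_pos rfl, sum_br]
  rw [Finset.prod_congr rfl (g := fun _ => (Polynomial.X : Polynomial ℕ) ^ 2 *
    (Polynomial.X + Polynomial.C 3)) (fun j hj => by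
      rw [if_neg (Finset.ne_of_mem_erase hj), sum_ok]), Finset.prod_const,
    Finset.card_erase_of_mem (Finset.mem_univ _), Finset.card_univ, Fintype.card_fin, mul_pow,
    ← pow_mul]
  have e : Polynomial.C 2 * (Polynomial.X : Polynomial ℕ) * (Polynomial.X ^ (2 * (m - 1)) *
      (Polynomial.X + Polynomial.C 3) ^ (m - 1)) = Polynomial.C 2 *
      (Polynomial.X ^ (2 * (m - 1) + 1) * (Polynomial.X + Polynomial.C 3) ^ (m - 1)) := by ring
  rw [e, Polynomial.coeff_C_mul, add_comm (2 * (m - 1) + 1) i, Polynomial.coeff_X_pow_mul,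
    Polynomial.coeff_X_add_C_pow]
  simp

/-- the configurations with the closing edge open -/
theorem card_true (m N : ℕ) (S : Finset (Fin m → Fin 3 → Bool))
    (hS : ∀ f, f ∈ S ↔ Crit true f ∧ ∑ j, wt (f j) = N) :
    S.card = (allOk m N).card + ∑ j₀, (oneBr m j₀ N).card := by
  classical
  have hex : ∀ s, ok s → br s → False := by
    intro s h1 h2
    unfold ok at h1
    have := h2.1
    omega
  have h : S = allOk m N ∪ Finset.univ.biUnion fun j₀ => oneBr m j₀ N := by
    ext f
    rw [hS, Finset.mem_union, mem_allOk, Finset.mem_biUnion]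
    constructor
    · rintro ⟨h | ⟨-, j₀, h1, h2⟩, hN⟩
      · exact Or.inl ⟨h, hN⟩
      · exact Or.inr ⟨j₀, Finset.mem_univ _, mem_oneBr.2 ⟨⟨h1, h2⟩, hN⟩⟩
    · rintro (⟨h, hN⟩ | ⟨j₀, -, h⟩)
      · exact ⟨Or.inl h, hN⟩
      · obtain ⟨⟨h1, h2⟩, hN⟩ := mem_oneBr.1 h
        exact ⟨Or.inr ⟨rfl, j₀, h1, h2⟩, hN⟩
  rw [h, Finset.card_union_of_disjoint, Finset.card_biUnion]
  · intro i _ j _ hij
    rw [Function.onFun, Finset.disjoint_left]
    intro f h1 h2
    exact hex _ ((mem_oneBr.1 h2).1.2 i hij) (mem_oneBr.1 h1).1.1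
  · rw [Finset.disjoint_left]
    intro f h1 h2
    rw [Finset.mem_biUnion] at h2
    obtain ⟨j₀, -, h2⟩ := h2
    exact hex _ ((mem_allOk.1 h1).1 j₀) (mem_oneBr.1 h2).1.1

theorem crit_false {m : ℕ} {f : Fin m → Fin 3 → Bool} : Crit false f ↔ ∀ j, ok (f j) := by
  unfold Crit
  simp

/-- number of connected spanning subgraphs with `2 m + i` edges containing `e` -/
def cT (m i : ℕ) : ℕ := (if i = 0 then 0 else 3 ^ (m - (i - 1)) * m.choose (i - 1)) +
  m * (2 * (3 ^ (m - 1 - i) * (m - 1).choose i))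

/-- number of connected spanning subgraphs with `2 m + i` edges not containing `e` -/
def cF (m i : ℕ) : ℕ := 3 ^ (m - i) * m.choose i

theorem ncard_with {m : ℕ} (hm : 2 ≤ m) (i : ℕ) :
    {S ∈ connSub (necklace m) ((i : ℤ) - 1) | em m none ∈ S}.ncard = cT m i := by
  classical
  have h : {S ∈ connSub (necklace m) ((i : ℤ) - 1) | em m none ∈ S} =
      (fun f => F (m := m) true f) '' (((Finset.univ.filter fun f : Fin m → Fin 3 → Bool =>
        Crit true f ∧ ∑ j, wt (f j) = 2 * m + i - 1 : Finset _)) : Set _) := by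
    ext S
    constructor
    · rintro ⟨⟨h1, h2, h3⟩, h4⟩
      rw [edgeSet_eq (by omega)] at h1
      obtain ⟨b, f, rfl⟩ := F_surj h1
      have hb : b = true := (mem_F hm).1 h4
      subst hb
      refine ⟨f, ?_, rfl⟩
      rw [connected_iff hm] at h2
      rw [ncard_F hm, Fintype.card_sum, Fintype.card_fin, Fintype.card_fin, if_pos rfl] at h3
      simp only [Finset.coe_filter, Finset.mem_univ, true_and, Set.mem_ofPred_eq]
      refine ⟨h2, ?_⟩
      generalize ∑ j, wt (f j) = w at h3 ⊢
      push_cast at h3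
      omega
    · rintro ⟨f, hf, rfl⟩
      simp only [Finset.coe_filter, Finset.mem_univ, true_and, Set.mem_ofPred_eq] at hf
      obtain ⟨h1, h2⟩ := hf
      refine ⟨⟨?_, (connected_iff hm).2 h1, ?_⟩, (mem_F hm).2 rfl⟩
      · rw [edgeSet_eq (by omega)]
        rintro _ ⟨y, -, rfl⟩
        exact ⟨y, rfl⟩
      · rw [ncard_F hm, h2, Fintype.card_sum, Fintype.card_fin, Fintype.card_fin, if_pos rfl]
        push_cast
        omega
  rw [h, Set.ncard_image_of_injective _ (fun f f' e => (F_inj hm e).2), Set.ncard_coe_finset,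
    card_true m (2 * m + i - 1) _ (fun f => by simp)]
  unfold cT
  congr 1
  · rcases Nat.eq_zero_or_pos i with rfl | hi
    · rw [card_allOk_lt (by omega), if_pos rfl]
    · rw [if_neg (by omega), show 2 * m + i - 1 = 2 * m + (i - 1) by omega, card_allOk]
  · rw [Finset.sum_congr rfl (g := fun _ => 2 * (3 ^ (m - 1 - i) * (m - 1).choose i)) (fun j₀ _ => by
      rw [show 2 * m + i - 1 = 2 * (m - 1) + 1 + i by omega, card_oneBr])]
    rw [Finset.sum_const, Finset.card_univ, Fintype.card_fin, smul_eq_mul]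

theorem ncard_without {m : ℕ} (hm : 2 ≤ m) (i : ℕ) :
    {S ∈ connSub (necklace m) ((i : ℤ) - 1) | em m none ∉ S}.ncard = cF m i := by
  classical
  have h : {S ∈ connSub (necklace m) ((i : ℤ) - 1) | em m none ∉ S} =
      (fun f => F (m := m) false f) '' (allOk m (2 * m + i) : Set _) := by
    ext S
    constructor
    · rintro ⟨⟨h1, h2, h3⟩, h4⟩
      rw [edgeSet_eq (by omega)] at h1
      obtain ⟨b, f, rfl⟩ := F_surj h1
      have hb : b = false := by
        rw [mem_F hm] at h4
        simpa [val] using h4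
      subst hb
      refine ⟨f, ?_, rfl⟩
      rw [connected_iff hm, crit_false] at h2
      rw [ncard_F hm, Fintype.card_sum, Fintype.card_fin, Fintype.card_fin,
        if_neg (by decide)] at h3
      rw [Finset.mem_coe, mem_allOk]
      refine ⟨h2, ?_⟩
      generalize ∑ j, wt (f j) = w at h3 ⊢
      push_cast at h3
      omega
    · rintro ⟨f, hf, rfl⟩
      rw [Finset.mem_coe, mem_allOk] at hf
      obtain ⟨h1, h2⟩ := hf
      refine ⟨⟨?_, (connected_iff hm).2 (crit_false.2 h1), ?_⟩, fun h => ?_⟩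
      · rw [edgeSet_eq (by omega)]
        rintro _ ⟨y, -, rfl⟩
        exact ⟨y, rfl⟩
      · rw [ncard_F hm, h2, Fintype.card_sum, Fintype.card_fin, Fintype.card_fin,
          if_neg (by decide)]
        push_cast
        omega
      · rw [mem_F hm] at h
        exact absurd h (show ¬ (false = true) by decide)
  rw [h, Set.ncard_image_of_injective _ (fun f f' e => (F_inj hm e).2), Set.ncard_coe_finset,
    card_allOk]
  rfl

theorem ncard_total {m : ℕ} (hm : 2 ≤ m) (i : ℕ) :
    (connSub (necklace m) ((i : ℤ) - 1)).ncard = cT m i + cF m i := by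
  rw [← ncard_with hm, ← ncard_without hm, ← Set.ncard_union_eq]
  · congr 1
    ext S
    constructor
    · intro h
      by_cases h2 : em m none ∈ S
      · exact Or.inl ⟨h, h2⟩
      · exact Or.inr ⟨h, h2⟩
    · rintro (h | h)
      · exact h.1
      · exact h.1
  · rw [Set.disjoint_left]
    intro S h1 h2
    exact h2.2 h1.2

/-- the ratio of the two numbers -/
theorem ratio {m i : ℕ} (hi : i ≤ m) (hm : 1 ≤ m) : (3 : ℚ) * (m - i + 1) * cT m i =
    (9 * i + 2 * (m - i) * (m - i + 1)) * cF m i := by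
  have hB : (3 : ℚ) * ((m * (2 * (3 ^ (m - 1 - i) * (m - 1).choose i)) : ℕ) : ℚ) =
      2 * (m - i) * ((3 ^ (m - i) * m.choose i : ℕ) : ℚ) := by
    obtain ⟨n, rfl⟩ : ∃ n, m = n + 1 := ⟨m - 1, by omega⟩
    have h1 := Nat.choose_mul_succ_eq n i
    rcases Nat.lt_or_ge n i with h | h
    · have : i = n + 1 := by omega
      subst this
      have : (n + 1 - 1).choose (n + 1) = 0 := Nat.choose_eq_zero_of_lt (by omega)
      rw [this]
      simp
    · have h2 : ((n.choose i : ℕ) : ℚ) * (n + 1) = ((n + 1).choose i : ℕ) * (n + 1 - i) := by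
        have : ((n.choose i * (n + 1) : ℕ) : ℚ) = (((n + 1).choose i * (n + 1 - i) : ℕ) : ℚ) := by
          rw [h1]
        rw [Nat.cast_mul, Nat.cast_mul, Nat.cast_sub (by omega)] at this
        push_cast at this
        exact this
      rw [show n + 1 - 1 = n by omega, show n + 1 - i = n - i + 1 by omega, pow_succ]
      push_cast
      linear_combination (6 * 3 ^ (n - i)) * h2
  unfold cT cF
  rcases Nat.eq_zero_or_pos i with rfl | hi0
  · rw [if_pos rfl, zero_add]
    push_cast at hB ⊢
    linear_combination (m + 1 : ℚ) * hB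
  · obtain ⟨l, rfl⟩ : ∃ l, i = l + 1 := ⟨i - 1, by omega⟩
    rw [if_neg (by omega), show l + 1 - 1 = l by omega]
    have h1 := Nat.choose_succ_right_eq m l
    have h2 : ((m.choose (l + 1) : ℕ) : ℚ) * (l + 1) = ((m.choose l : ℕ) : ℚ) * (m - l) := by
      have : ((m.choose (l + 1) * (l + 1) : ℕ) : ℚ) = ((m.choose l * (m - l) : ℕ) : ℚ) := by
        rw [h1]
      rw [Nat.cast_mul, Nat.cast_mul, Nat.cast_sub (by omega)] at this
      push_cast at this
      exact this
    have h3 : (3 : ℚ) ^ (m - l) = 3 * 3 ^ (m - (l + 1)) := by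
      rw [← pow_succ']; congr 1; omega
    push_cast at hB ⊢
    rw [h3]
    linear_combination ((m - (l + 1) + 1 : ℚ)) * hB - (9 * 3 ^ (m - (l + 1))) * h2

/-! ### The marginal -/

theorem cF_pos {m i : ℕ} (hi : i ≤ m) : 0 < cF m i := by
  unfold cF
  exact Nat.mul_pos (by positivity) (Nat.choose_pos hi)

/-- the marginal in terms of `i = k + 1` -/
theorem marginal_eq {m i : ℕ} (hm : 2 ≤ m) (hi : i ≤ m + 1) :
    marginal (necklace m) (em m none) ((i : ℤ) - 1) =
      (9 * i + 2 * (m - i + 1) * (m - i)) / (9 * i + 2 * (m - i + 1) * (m - i) + 3 * (m - i + 1)) := by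
  unfold marginal
  rw [ncard_with hm, ncard_total hm]
  push_cast
  rcases Nat.lt_or_ge m i with h | h
  · have : i = m + 1 := by omega
    subst this
    have h1 : cT m (m + 1) = 1 := by
      unfold cT
      rw [if_neg (by omega), show m + 1 - 1 = m by omega, Nat.choose_self,
        Nat.choose_eq_zero_of_lt (show m - 1 < m + 1 by omega)]
      simp
    have h2 : cF m (m + 1) = 0 := by
      unfold cF
      rw [Nat.choose_eq_zero_of_lt (by omega), mul_zero]
    rw [h1, h2]
    push_cast
    have h3 : (m : ℚ) - (m + 1) + 1 = 0 := by ring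
    rw [h3]
    have h4 : (9 : ℚ) * (m + 1) ≠ 0 := by positivity
    field_simp
    ring
  · have hF : (0 : ℚ) < cF m i := by exact_mod_cast cF_pos h
    have hr := ratio h (by omega)
    have hi' : (i : ℚ) ≤ m := by exact_mod_cast h
    have hT : (0 : ℚ) ≤ cT m i := by positivity
    have h5 : (0 : ℚ) < m - i + 1 := by linarith
    have h6 : (0 : ℚ) ≤ 2 * (m - i + 1) * (m - i) := mul_nonneg (by linarith) (by linarith)
    have h7 : (0 : ℚ) ≤ 9 * i := by positivity
    rw [div_eq_div_iff (by positivity) (by positivity)]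
    linear_combination hr

theorem decreasing_iff {m i : ℕ} (hm : 2 ≤ m) (hi : i ≤ m) :
    marginal (necklace m) (em m none) (((i + 1 : ℕ) : ℤ) - 1) <
      marginal (necklace m) (em m none) ((i : ℤ) - 1) ↔
        9 * (m + 1) < 2 * (m + 1 - i) * (m - i) := by
  rw [marginal_eq hm (by omega), marginal_eq hm (by omega)]
  obtain ⟨d, rfl⟩ : ∃ d, m = i + d := ⟨m - i, by omega⟩
  rw [show i + d + 1 - i = d + 1 by omega, show i + d - i = d by omega]
  push_cast
  have e1 : ((i : ℚ) + d - (i + 1) + 1) = d := by ring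
  have e2 : ((i : ℚ) + d - (i + 1)) = d - 1 := by ring
  have e3 : ((i : ℚ) + d - i + 1) = d + 1 := by ring
  have e4 : ((i : ℚ) + d - i) = d := by ring
  rw [e1, e2, e3, e4]
  have hd0 : (0 : ℚ) ≤ d := by positivity
  have hi0 : (0 : ℚ) ≤ i := by positivity
  have hdd : (0 : ℚ) ≤ d * (d - 1) := by
    rcases Nat.eq_zero_or_pos d with rfl | h
    · simp
    · have : (1 : ℚ) ≤ d := by exact_mod_cast h
      exact mul_nonneg hd0 (by linarith)
  have p1 : (0 : ℚ) < 9 * (i + 1) + 2 * d * (d - 1) + 3 * d := by nlinarith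
  have p2 : (0 : ℚ) < 9 * i + 2 * (d + 1) * d + 3 * (d + 1) := by positivity
  rw [div_lt_div_iff₀ p1 p2]
  constructor
  · intro h
    have h2 : (0 : ℚ) < 2 * (d + 1) * d - 9 * (i + d + 1) := by nlinarith
    have h3 : ((9 * (i + d + 1) : ℕ) : ℚ) < ((2 * (d + 1) * d : ℕ) : ℚ) := by
      push_cast; linarith
    exact_mod_cast h3
  · intro h
    have h3 : ((9 * (i + d + 1) : ℕ) : ℚ) < ((2 * (d + 1) * d : ℕ) : ℚ) := by exact_mod_cast h
    push_cast at h3
    nlinarith

theorem connected {m : ℕ} (hm : 2 ≤ m) : (necklace m).Connected := by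
  have h : Set.range (em m) = F (m := m) true (fun _ _ => true) := by
    ext x
    constructor
    · rintro ⟨y, rfl⟩
      rw [mem_F hm]
      rcases y with _ | ⟨j, c⟩ <;> rfl
    · rintro ⟨y, -, rfl⟩
      exact ⟨y, rfl⟩
  unfold necklace
  rw [h, connected_iff hm]
  exact Or.inl fun j => by show 2 ≤ wt (fun _ => true); decide

theorem ncard_edgeSet {m : ℕ} (hm : 2 ≤ m) : (necklace m).edgeSet.ncard = 3 * m + 1 := by
  rw [edgeSet_eq (by omega), ← Set.image_univ, Set.ncard_image_of_injective _ (em_injective hm),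
    Set.ncard_univ, Nat.card_eq_fintype_card, Fintype.card_option, Fintype.card_prod,
    Fintype.card_fin, Fintype.card_fin]
  ring

theorem range_eq {m : ℕ} (hm : 2 ≤ m) :
    ((necklace m).edgeSet.ncard : ℤ) - Fintype.card (Vert m) = m := by
  rw [ncard_edgeSet hm, Fintype.card_sum, Fintype.card_fin, Fintype.card_fin]
  push_cast
  ring

theorem dec_iff {m : ℕ} (hm : 2 ≤ m) (k : ℤ) (h1 : -1 ≤ k) (h2 : k < m) :
    marginal (necklace m) (em m none) (k + 1) < marginal (necklace m) (em m none) k ↔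
      9 * ((m : ℤ) + 1) < 2 * (m - k) * (m - k - 1) := by
  obtain ⟨i, hi⟩ : ∃ i : ℕ, k = (i : ℤ) - 1 := ⟨(k + 1).toNat, by omega⟩
  subst hi
  have hi : i ≤ m := by omega
  have h := decreasing_iff hm hi
  rw [show (i : ℤ) - 1 + 1 = ((i + 1 : ℕ) : ℤ) - 1 by push_cast; ring, h]
  obtain ⟨d, rfl⟩ : ∃ d, m = i + d := ⟨m - i, by omega⟩
  rw [show i + d + 1 - i = d + 1 by omega, show i + d - i = d by omega]
  have e : 2 * (((i + d : ℕ) : ℤ) - ((i : ℤ) - 1)) * (((i + d : ℕ) : ℤ) - ((i : ℤ) - 1) - 1) =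
      ((2 * (d + 1) * d : ℕ) : ℤ) := by push_cast; ring
  have e2 : 9 * (((i + d : ℕ) : ℤ) + 1) = ((9 * (i + d + 1) : ℕ) : ℤ) := by push_cast; ring
  rw [e, e2, Nat.cast_lt]

/-- **Theorem.**  For `m ≥ 2` let `G` be the chain of `m` triangles closed by an edge `e`; the excess
takes the values `-1, ..., |E| - |V| = m`.
(1) The marginal of `e` is `p_e(k) = N / (N + 3 (m - k))`, `N = 9 (k + 1) + 2 (m - k) (m - k - 1)`.
(2) `p_e(k + 1) < p_e(k)` if and only if `9 (m + 1) < 2 (m - k) (m - k - 1)`.
(3) For every `K` there is a finite connected graph with an edge such that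
`p_e(-1) > p_e(0) > ... > p_e(K + 1)`; so the monotonicity can fail at each excess `k`.
(4) For every `ε > 0` and all large `m` the marginal `p_e(k)` is strictly decreasing in the range
`-1 ≤ k ≤ (1 - ε) (|E| - |V|)`. -/
theorem result :
    (∀ m : ℕ, 2 ≤ m → (necklace m).Connected ∧ em m none ∈ (necklace m).edgeSet ∧
      ((necklace m).edgeSet.ncard : ℤ) - Fintype.card (Vert m) = m ∧
      (∀ k : ℤ, -1 ≤ k → k ≤ m → marginal (necklace m) (em m none) k =
        (9 * (k + 1) + 2 * (m - k) * (m - k - 1)) /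
          (9 * (k + 1) + 2 * (m - k) * (m - k - 1) + 3 * (m - k))) ∧
      (∀ k : ℤ, -1 ≤ k → k < m →
        (marginal (necklace m) (em m none) (k + 1) < marginal (necklace m) (em m none) k ↔
          9 * ((m : ℤ) + 1) < 2 * (m - k) * (m - k - 1)))) ∧
    (∀ K : ℕ, ∃ (V : Type) (_ : Fintype V) (G : SimpleGraph V) (e : Sym2 V),
      G.Connected ∧ e ∈ G.edgeSet ∧ (K : ℤ) < (G.edgeSet.ncard : ℤ) - Fintype.card V ∧
      ∀ k : ℤ, -1 ≤ k → k ≤ K → marginal G e (k + 1) < marginal G e k) ∧
    (∀ ε : ℝ, 0 < ε → ∃ M : ℕ, ∀ m : ℕ, M ≤ m → ∀ k : ℤ, -1 ≤ k →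
      (k : ℝ) ≤ (1 - ε) * (((necklace m).edgeSet.ncard : ℝ) - Fintype.card (Vert m)) →
      marginal (necklace m) (em m none) (k + 1) < marginal (necklace m) (em m none) k) := by
  refine ⟨fun m hm => ⟨connected hm, ?_, range_eq hm, ?_, dec_iff hm⟩, ?_, ?_⟩
  · rw [edgeSet_eq (by omega)]
    exact ⟨none, rfl⟩
  · intro k h1 h2
    obtain ⟨i, hi⟩ : ∃ i : ℕ, k = (i : ℤ) - 1 := ⟨(k + 1).toNat, by omega⟩
    subst hi
    rw [marginal_eq hm (by omega)]
    push_cast
    congr 1 <;> ring
  · intro K
    have hm : 2 ≤ 2 * K + 10 := by omega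
    refine ⟨Vert (2 * K + 10), inferInstance, necklace (2 * K + 10), em _ none, connected hm, ?_,
      ?_, ?_⟩
    · rw [edgeSet_eq (by omega)]
      exact ⟨none, rfl⟩
    · rw [range_eq hm]
      push_cast
      linarith
    · intro k h1 h2
      rw [dec_iff hm k h1 (by push_cast; linarith)]
      push_cast
      nlinarith [mul_nonneg (show (0 : ℤ) ≤ K - k by linarith) (show (0 : ℤ) ≤ K - k by linarith)]
  · intro ε hε
    obtain ⟨M, hM⟩ := exists_nat_gt (max (2 / ε) (20 / (ε * ε)))
    refine ⟨max M 2, fun m hm k h1 h2 => ?_⟩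
    have hm2 : 2 ≤ m := le_trans (le_max_right _ _) hm
    have hmM : M ≤ m := le_trans (le_max_left _ _) hm
    have hr : ((necklace m).edgeSet.ncard : ℝ) - Fintype.card (Vert m) = m := by
      have := range_eq hm2
      exact_mod_cast this
    rw [hr] at h2
    have hMm : (M : ℝ) ≤ m := by exact_mod_cast hmM
    have b1 : 2 / ε < m := lt_of_lt_of_le (lt_of_le_of_lt (le_max_left _ _) hM) hMm
    have b2 : 20 / (ε * ε) < m := lt_of_lt_of_le (lt_of_le_of_lt (le_max_right _ _) hM) hMm
    rw [div_lt_iff₀ hε] at b1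
    rw [div_lt_iff₀ (by positivity)] at b2
    have hm0 : (2 : ℝ) ≤ m := by exact_mod_cast hm2
    have c1 : (m : ℝ) * ε ≤ m - k := by linarith
    have hkm : (k : ℝ) < m := by nlinarith
    have hkm' : k < m := by exact_mod_cast hkm
    rw [dec_iff hm2 k h1 hkm']
    have c2 : (m : ℝ) * ε / 2 ≤ m - k - 1 := by linarith
    have c3 : (0 : ℝ) ≤ m * ε / 2 := by positivity
    have c4 : ((m : ℝ) * ε) * (m * ε / 2) ≤ (m - k) * (m - k - 1) :=
      mul_le_mul c1 c2 c3 (by linarith)
    have c5 : (20 : ℝ) * m ≤ m * (ε * ε) * m := mul_le_mul_of_nonneg_right b2.le (by linarith)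
    have c6 : (9 : ℝ) * (m + 1) < 2 * (m - k) * (m - k - 1) := by nlinarith
    exact_mod_cast c6

end Pool.Agent.Results.MP_7fb2f0_pr.TriangleNecklace
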